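import Mathlib

/-! Cayley sum hypergraphs: definitions. -/

set_option autoImplicit false

open Finset

namespace Pool.Agent.U920.CS

/-- The `r`-uniform Cayley sum hypergraph of `S ⊆ G`: the vertices are the elements of `G`; the
edges are the sets of `r` elements of `G` whose sum belongs to `S`. -/
def cayleySum {G : Type} [AddCommGroup G] [Fintype G] [DecidableEq G] (r : ℕ) (S : Finset G) :
    Finset (Finset G) :=
  (powersetCard r univ).filter (fun e => ∑ x ∈ e, x ∈ S)

/-- The `r`-graph with edge set `H` contains no complete `r`-graph on `r + 1` vertices. -/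
def NoClique {V : Type} (r : ℕ) (H : Finset (Finset V)) : Prop :=
  ∀ W : Finset V, W.card = r + 1 → ∃ e ⊆ W, e.card = r ∧ e ∉ H

/-- The subgroup of the multiples of `r` in `G`. -/
def mulSub (G : Type) [AddCommGroup G] (r : ℕ) : AddSubgroup G :=
  (nsmulAddMonoidHom r : G →+ G).range

end Pool.Agent.U920.CS
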