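import Pool.Agent.U920.CS.Pop
import Pool.Agent.U920.CS.Defs

/-! Cayley sum hypergraphs without `K_{r+1}^r`. -/

set_option autoImplicit false
set_option linter.unusedSectionVars false

open scoped Pointwise
open Finset

namespace Pool.Agent.U920.CS

section basic

variable {G : Type} [AddCommGroup G] [Fintype G] [DecidableEq G]

theorem mem_cayleySum {r : ℕ} {S : Finset G} {e : Finset G} :
    e ∈ cayleySum r S ↔ e.card = r ∧ ∑ x ∈ e, x ∈ S := by
  simp [cayleySum, mem_powersetCard]

theorem noClique_iff {r : ℕ} {S : Finset G} :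
    NoClique r (cayleySum r S) ↔
      ∀ T ⊆ S, T.card = r + 1 → ¬ ∃ g : G, ∑ x ∈ T, x = r • g := by
  constructor
  · rintro h T hTS hT ⟨g, hg⟩
    have hinj : Function.Injective (fun t : G => g - t) := sub_right_injective
    obtain ⟨e, heW, he, hen⟩ := h (T.image (fun t => g - t)) (by
      rw [Finset.card_image_of_injective _ hinj, hT])
    apply hen
    rw [mem_cayleySum]
    refine ⟨he, ?_⟩
    have hsum : ∑ x ∈ T.image (fun t => g - t), x = g := by
      rw [Finset.sum_image (fun a _ b _ hab => hinj hab), Finset.sum_sub_distrib, hg,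
        Finset.sum_const, hT, succ_nsmul]
      abel
    have hd : (T.image (fun t => g - t) \ e).card = 1 := by
      rw [Finset.card_sdiff_of_subset heW, Finset.card_image_of_injective _ hinj, hT, he]
      omega
    obtain ⟨w, hw⟩ := Finset.card_eq_one.1 hd
    have hs2 := Finset.sum_sdiff heW (f := fun x : G => x)
    rw [hw, Finset.sum_singleton, hsum] at hs2
    have hwW : w ∈ T.image (fun t => g - t) := by
      have : w ∈ T.image (fun t => g - t) \ e := by rw [hw]; exact Finset.mem_singleton_self w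
      exact (Finset.mem_sdiff.1 this).1
    rw [Finset.mem_image] at hwW
    obtain ⟨t, ht, rfl⟩ := hwW
    have : ∑ x ∈ e, x = t := by
      have h3 : (g - t) + ∑ x ∈ e, x = (g - t) + t := by rw [hs2]; abel
      exact add_left_cancel h3
    rw [this]
    exact hTS ht
  · intro h W hW
    by_contra hcon
    push Not at hcon
    set s := ∑ x ∈ W, x with hs
    have hinj : Function.Injective (fun t : G => s - t) := sub_right_injective
    apply h (W.image (fun w => s - w))
    · intro t ht
      rw [Finset.mem_image] at ht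
      obtain ⟨w, hw, rfl⟩ := ht
      have h1 := hcon (W.erase w) (Finset.erase_subset _ _) (by
        rw [Finset.card_erase_of_mem hw, hW]; rfl)
      rw [mem_cayleySum] at h1
      have h2 : ∑ x ∈ W.erase w, x = s - w := by
        rw [hs, ← Finset.add_sum_erase W (fun x => x) hw]
        abel
      rw [← h2]
      exact h1.2
    · rw [Finset.card_image_of_injective _ hinj, hW]
    · refine ⟨s, ?_⟩
      rw [Finset.sum_image (fun a _ b _ hab => hinj hab), Finset.sum_sub_distrib, ← hs,
        Finset.sum_const, hW, succ_nsmul]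
      abel

/-- double counting of the edges -/
theorem edges_count (k : ℕ) (S : Finset G) :
    (k + 1) * (cayleySum (k + 1) S).card =
      ∑ f ∈ powersetCard k (univ : Finset G),
        (univ.filter (fun x => x ∉ f ∧ ∑ y ∈ f, y + x ∈ S)).card := by
  rw [← Finset.card_sigma]
  have h1 : (k + 1) * (cayleySum (k + 1) S).card =
      ((cayleySum (k + 1) S).sigma (fun e => e)).card := by
    rw [Finset.card_sigma, Finset.sum_const_nat (m := k + 1), mul_comm]
    intro e he
    exact (mem_cayleySum.1 he).1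
  rw [h1]
  refine Finset.card_nbij' (fun q => ⟨q.1.erase q.2, q.2⟩) (fun q => ⟨insert q.2 q.1, q.2⟩)
    ?_ ?_ ?_ ?_
  · rintro ⟨e, x⟩ h
    simp only [Finset.coe_sigma, Set.mem_sigma_iff, Finset.mem_coe, mem_cayleySum,
      Finset.mem_powersetCard, Finset.mem_filter, Finset.mem_univ, true_and] at h ⊢
    obtain ⟨⟨h1, h2⟩, h3⟩ := h
    refine ⟨⟨Finset.subset_univ _, ?_⟩, Finset.notMem_erase _ _, ?_⟩
    · rw [Finset.card_erase_of_mem h3, h1]; rfl
    · rw [Finset.sum_erase_add _ _ h3]
      exact h2
  · rintro ⟨f, x⟩ h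
    simp only [Finset.coe_sigma, Set.mem_sigma_iff, Finset.mem_coe, mem_cayleySum,
      Finset.mem_powersetCard, Finset.mem_filter, Finset.mem_univ, true_and] at h ⊢
    obtain ⟨⟨-, h1⟩, h2, h3⟩ := h
    refine ⟨⟨?_, ?_⟩, Finset.mem_insert_self _ _⟩
    · rw [Finset.card_insert_of_notMem h2, h1]
    · rw [Finset.sum_insert h2, add_comm]
      exact h3
  · rintro ⟨e, x⟩ h
    simp only [Finset.coe_sigma, Set.mem_sigma_iff, Finset.mem_coe] at h
    simp only [Finset.insert_erase h.2]
  · rintro ⟨f, x⟩ h
    simp only [Finset.coe_sigma, Set.mem_sigma_iff, Finset.mem_coe,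
      Finset.mem_filter, Finset.mem_univ, true_and] at h
    simp only [Finset.erase_insert h.2.1]

theorem edges_upper (k : ℕ) (S : Finset G) :
    (k + 1) * (cayleySum (k + 1) S).card ≤ (Fintype.card G).choose k * S.card := by
  rw [edges_count]
  refine (Finset.sum_le_card_nsmul _ _ S.card ?_).trans ?_
  · intro f _
    apply Finset.card_le_card_of_injOn (fun x => ∑ y ∈ f, y + x)
    · intro x hx
      rw [Finset.mem_coe, Finset.mem_filter] at hx
      exact hx.2.2
    · intro x _ y _ h
      exact add_left_cancel h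
  · rw [Finset.card_powersetCard, Finset.card_univ, smul_eq_mul]

theorem edges_lower (k : ℕ) (S : Finset G) :
    (Fintype.card G).choose k * S.card ≤
      (k + 1) * (cayleySum (k + 1) S).card + (Fintype.card G).choose k * k := by
  rw [edges_count]
  have h1 : ∀ f ∈ powersetCard k (univ : Finset G),
      S.card ≤ (univ.filter (fun x => x ∉ f ∧ ∑ y ∈ f, y + x ∈ S)).card + k := by
    intro f hf
    rw [Finset.mem_powersetCard] at hf
    have h2 : S.image (fun s => s - ∑ y ∈ f, y) ⊆
        (univ.filter (fun x => x ∉ f ∧ ∑ y ∈ f, y + x ∈ S)) ∪ f := by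
      intro x hx
      rw [Finset.mem_image] at hx
      obtain ⟨s, hs, rfl⟩ := hx
      rw [Finset.mem_union, Finset.mem_filter]
      by_cases h : s - ∑ y ∈ f, y ∈ f
      · right; exact h
      · left
        refine ⟨Finset.mem_univ _, h, ?_⟩
        rwa [add_sub_cancel]
    have h3 := (Finset.card_le_card h2).trans (Finset.card_union_le _ _)
    rw [Finset.card_image_of_injective _ (sub_left_injective), hf.2] at h3
    exact h3
  have h2 := Finset.sum_le_sum h1
  rw [Finset.sum_const, Finset.card_powersetCard, Finset.card_univ, smul_eq_mul,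
    Finset.sum_add_distrib, Finset.sum_const, Finset.card_powersetCard, Finset.card_univ,
    smul_eq_mul] at h2
  exact h2

end basic

section explicit

/-- iterated sumsets -/
def sums {Q : Type*} [AddCommGroup Q] [DecidableEq Q] (A : Finset Q) : ℕ → Finset Q
  | 0 => A
  | j + 1 => sums A j + A

theorem sums_grow {Q : Type*} [AddCommGroup Q] [Fintype Q] [DecidableEq Q] {r p : ℕ}
    (hp : p.Prime) (hQ : ∀ x : Q, r • x = 0)
    (hq : ∀ q : ℕ, q.Prime → q ∣ r → q ∣ Fintype.card Q → p ≤ q)
    (A : Finset Q) (hA : Fintype.card Q < p * A.card) (j : ℕ) :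
    (sums A j).Nonempty ∧ min (Fintype.card Q : ℝ) ((1 / p + j * beta r p) * Fintype.card Q) ≤
      ((sums A j).card : ℝ) := by
  have hp' : (0 : ℝ) < p := by exact_mod_cast hp.pos
  have hAne : A.Nonempty := by
    rw [← Finset.card_pos]
    by_contra h
    have : A.card = 0 := by omega
    rw [this] at hA
    omega
  induction j with
  | zero =>
    refine ⟨hAne, (min_le_right _ _).trans ?_⟩
    have h1 : (Fintype.card Q : ℝ) ≤ p * A.card := by exact_mod_cast hA.le
    push_cast
    rw [zero_mul, add_zero, one_div, inv_mul_le_iff₀ hp']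
    exact h1
  | succ j ih =>
    obtain ⟨ih1, ih2⟩ := ih
    refine ⟨ih1.add hAne, ?_⟩
    refine le_trans ?_ (step hp hQ hq (sums A j) A ih1 hA)
    apply le_min (min_le_left _ _)
    have hb := beta_pos (r := r) hp.pos
    have h0 : (0 : ℝ) ≤ beta r p * Fintype.card Q := by positivity
    refine le_trans ?_ (add_le_add_left ih2 _)
    rw [← min_add_add_right]
    apply min_le_min
    · linarith
    · push_cast
      apply le_of_eq
      ring

variable {G : Type} [AddCommGroup G] [Fintype G] [DecidableEq G]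

theorem mem_mulSub {r : ℕ} {x : G} : x ∈ mulSub G r ↔ ∃ g : G, x = r • g := by
  unfold mulSub
  rw [AddMonoidHom.mem_range]
  constructor
  · rintro ⟨g, hg⟩; exact ⟨g, hg.symm⟩
  · rintro ⟨g, hg⟩; exact ⟨g, hg.symm⟩

theorem quot_nsmul (r : ℕ) (x : G ⧸ mulSub G r) : r • x = 0 := by
  induction x using QuotientAddGroup.induction_on with
  | H g =>
    rw [← QuotientAddGroup.mk_nsmul, QuotientAddGroup.eq_zero_iff, mem_mulSub]
    exact ⟨g, rfl⟩

theorem fiber_card (K : AddSubgroup G) (S : Finset G) (q : G ⧸ K)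
    [DecidablePred fun s : G => (QuotientAddGroup.mk s : G ⧸ K) = q] :
    (S.filter (fun s => (QuotientAddGroup.mk s : G ⧸ K) = q)).card ≤ Nat.card K := by
  obtain ⟨g, hg⟩ := QuotientAddGroup.mk_surjective q
  rw [← Pool.Agent.U920.CS.fs_card]
  apply Finset.card_le_card_of_injOn (fun s => -g + s)
  · intro s hs
    rw [Finset.mem_coe, Finset.mem_filter, ← hg] at hs
    rw [Finset.mem_coe, Pool.Agent.Helper450.Kneser.mem_fs]
    exact QuotientAddGroup.eq.1 hs.2.symm
  · intro a _ b _ h
    exact add_left_cancel h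

theorem lift_sums (r : ℕ) (K : AddSubgroup G) [DecidableEq (G ⧸ K)] (S : Finset G)
    (A : Finset (G ⧸ K))
    (hA : ∀ q ∈ A, r + 1 ≤ (S.filter (fun s => (QuotientAddGroup.mk s : G ⧸ K) = q)).card)
    (j : ℕ) : ∀ z ∈ sums A j, ∀ F : Finset G, F.card + j ≤ r →
      ∃ T ⊆ S, T.card = j + 1 ∧ Disjoint T F ∧ (QuotientAddGroup.mk (∑ x ∈ T, x) : G ⧸ K) = z := by
  induction j with
  | zero =>
    intro z hz F hF
    have h1 : F.card < (S.filter (fun s => (QuotientAddGroup.mk s : G ⧸ K) = z)).card := by
      have := hA z hz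
      omega
    obtain ⟨s, hs, hsF⟩ := Finset.exists_mem_notMem_of_card_lt_card h1
    rw [Finset.mem_filter] at hs
    refine ⟨{s}, ?_, ?_, ?_, ?_⟩
    · rw [Finset.singleton_subset_iff]; exact hs.1
    · rw [Finset.card_singleton]
    · rw [Finset.disjoint_singleton_left]; exact hsF
    · rw [Finset.sum_singleton]; exact hs.2
  | succ j ih =>
    intro z hz F hF
    rw [sums, Finset.mem_add] at hz
    obtain ⟨y, hy, a, ha, rfl⟩ := hz
    have h1 : F.card < (S.filter (fun s => (QuotientAddGroup.mk s : G ⧸ K) = a)).card := by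
      have := hA a ha
      omega
    obtain ⟨s, hs, hsF⟩ := Finset.exists_mem_notMem_of_card_lt_card h1
    rw [Finset.mem_filter] at hs
    obtain ⟨T, hTS, hTc, hTd, hTs⟩ := ih y hy (insert s F) (by
      rw [Finset.card_insert_of_notMem hsF]; omega)
    have hsT : s ∉ T := fun h => (Finset.disjoint_left.1 hTd h) (Finset.mem_insert_self _ _)
    refine ⟨insert s T, ?_, ?_, ?_, ?_⟩
    · intro x hx
      rw [Finset.mem_insert] at hx
      rcases hx with rfl | hx
      · exact hs.1
      · exact hTS hx
    · rw [Finset.card_insert_of_notMem hsT, hTc]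
    · rw [Finset.disjoint_left]
      intro x hx hxF
      rw [Finset.mem_insert] at hx
      rcases hx with rfl | hx
      · exact hsF hxF
      · exact (Finset.disjoint_left.1 hTd hx) (Finset.mem_insert_of_mem hxF)
    · rw [Finset.sum_insert hsT, QuotientAddGroup.mk_add, hTs, hs.2]
      abel

/-- the condition on the primes passes to quotients -/
theorem prime_quot {r p : ℕ} (hq : ∀ q : ℕ, q.Prime → q ∣ r → q ∣ Fintype.card G → p ≤ q)
    (K : AddSubgroup G) [Fintype (G ⧸ K)] :
    ∀ q : ℕ, q.Prime → q ∣ r → q ∣ Fintype.card (G ⧸ K) → p ≤ q := by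
  intro q h1 h2 h3
  apply hq q h1 h2
  have h4 := K.card_eq_card_quotient_mul_card_addSubgroup
  rw [Nat.card_eq_fintype_card, Nat.card_eq_fintype_card (α := G ⧸ K)] at h4
  rw [h4]
  exact Dvd.dvd.mul_right h3 _

/-- the explicit upper bound -/
theorem card_le_explicit {r p : ℕ} (hr : 2 ≤ r) (hp : p.Prime) (hpr : p ∣ r)
    (hq : ∀ q : ℕ, q.Prime → q ∣ r → q ∣ Fintype.card G → p ≤ q) (S : Finset G)
    (hS : ∀ T ⊆ S, T.card = r + 1 → ¬ ∃ g : G, ∑ x ∈ T, x = r • g) :
    p * S.card ≤ Fintype.card G + p * r * (mulSub G r).index := by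
  classical
  set K := mulSub G r with hK
  have : Fintype (G ⧸ K) := Fintype.ofFinite _
  set A : Finset (G ⧸ K) := univ.filter
    (fun q => r + 1 ≤ (S.filter (fun s => (QuotientAddGroup.mk s : G ⧸ K) = q)).card) with hA
  have hAm : ∀ q ∈ A, r + 1 ≤ (S.filter (fun s => (QuotientAddGroup.mk s : G ⧸ K) = q)).card := by
    intro q hqA
    rw [hA, Finset.mem_filter] at hqA
    exact hqA.2
  have hQ : ∀ x : G ⧸ K, r • x = 0 := quot_nsmul r
  have hqQ := prime_quot hq K
  have hp' : (0 : ℝ) < p := by exact_mod_cast hp.pos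
  have h1 : p * A.card ≤ Fintype.card (G ⧸ K) := by
    by_contra hcon
    rw [not_le] at hcon
    obtain ⟨hne, hgrow⟩ := sums_grow hp hQ hqQ A hcon (r - 1)
    have hfull := beta_full hp.pos hpr (by omega : 0 < r)
    have hall : sums A (r - 1) = univ := by
      rw [← Finset.card_eq_iff_eq_univ]
      apply le_antisymm (Finset.card_le_univ _)
      have h2 : (Fintype.card (G ⧸ K) : ℝ) ≤
          min (Fintype.card (G ⧸ K) : ℝ) ((1 / p + ((r - 1 : ℕ) : ℝ) * beta r p) *
            Fintype.card (G ⧸ K)) := by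
        apply le_min le_rfl
        have := mul_le_mul_of_nonneg_right hfull (by positivity : (0 : ℝ) ≤ Fintype.card (G ⧸ K))
        rwa [one_mul] at this
      have h3 := h2.trans hgrow
      exact_mod_cast h3
    have hAne : A.Nonempty := by
      rw [← Finset.card_pos]
      by_contra h
      have : A.card = 0 := by omega
      rw [this] at hcon
      omega
    obtain ⟨a, ha⟩ := hAne
    have hcl := hAm a ha
    obtain ⟨s, hs⟩ : (S.filter (fun s => (QuotientAddGroup.mk s : G ⧸ K) = a)).Nonempty := by
      rw [← Finset.card_pos]; omega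
    rw [Finset.mem_filter] at hs
    obtain ⟨T, hTS, hTc, hTd, hTs⟩ := lift_sums r K S A hAm (r - 1) (-a)
      (by rw [hall]; exact Finset.mem_univ _) {s} (by rw [Finset.card_singleton]; omega)
    have hsT : s ∉ T := fun h => (Finset.disjoint_left.1 hTd h) (Finset.mem_singleton_self _)
    apply hS (insert s T)
    · intro x hx
      rw [Finset.mem_insert] at hx
      rcases hx with rfl | hx
      · exact hs.1
      · exact hTS hx
    · rw [Finset.card_insert_of_notMem hsT, hTc]; omega
    · rw [← mem_mulSub, ← hK, ← QuotientAddGroup.eq_zero_iff, Finset.sum_insert hsT,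
        QuotientAddGroup.mk_add, hTs, hs.2, add_neg_cancel]
  have h2 : S.card ≤ A.card * Nat.card K + r * Fintype.card (G ⧸ K) := by
    rw [Finset.card_eq_sum_card_fiberwise (f := (QuotientAddGroup.mk : G → G ⧸ K))
      (t := (univ : Finset (G ⧸ K))) (fun _ _ => Finset.mem_coe.2 (Finset.mem_univ _))]
    have h3 : ∀ q ∈ (univ : Finset (G ⧸ K)),
        (S.filter (fun s => (QuotientAddGroup.mk s : G ⧸ K) = q)).card ≤
          (if q ∈ A then Nat.card K else 0) + r := by
      intro q _
      split_ifs with h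
      · exact (fiber_card K S q).trans (Nat.le_add_right _ _)
      · rw [hA, Finset.mem_filter] at h
        have : ¬ (r + 1 ≤ (S.filter (fun s => (QuotientAddGroup.mk s : G ⧸ K) = q)).card) :=
          fun h' => h ⟨Finset.mem_univ _, h'⟩
        omega
    refine (Finset.sum_le_sum h3).trans ?_
    rw [Finset.sum_add_distrib, Finset.sum_const, Finset.card_univ, smul_eq_mul,
      ← Finset.sum_filter, Finset.sum_const, smul_eq_mul, Finset.filter_mem_eq_inter,
      Finset.univ_inter, mul_comm r]
  have h4 := K.card_eq_card_quotient_mul_card_addSubgroup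
  rw [Nat.card_eq_fintype_card, Nat.card_eq_fintype_card (α := G ⧸ K)] at h4
  have h5 : K.index = Fintype.card (G ⧸ K) := by
    rw [AddSubgroup.index, Nat.card_eq_fintype_card]
  rw [h5, h4]
  calc p * S.card ≤ p * (A.card * Nat.card K + r * Fintype.card (G ⧸ K)) :=
        Nat.mul_le_mul_left _ h2
    _ = (p * A.card) * Nat.card K + p * r * Fintype.card (G ⧸ K) := by ring
    _ ≤ Fintype.card (G ⧸ K) * Nat.card K + p * r * Fintype.card (G ⧸ K) :=
        Nat.add_le_add_right (Nat.mul_le_mul_right _ h1) _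

end explicit

/-- the asymptotic upper bound -/
theorem card_le_asymp {r p : ℕ} (hr : 2 ≤ r) (hp : p.Prime) (hpr : p ∣ r) (ε : ℝ) (hε : 0 < ε) :
    ∃ n₀ : ℕ, ∀ (G : Type) [AddCommGroup G] [Fintype G] [DecidableEq G],
      (∀ q : ℕ, q.Prime → q ∣ r → q ∣ Fintype.card G → p ≤ q) →
      n₀ ≤ Fintype.card G → ∀ S : Finset G,
      (∀ T ⊆ S, T.card = r + 1 → ¬ ∃ g : G, ∑ x ∈ T, x = r • g) →
      (S.card : ℝ) ≤ (1 / (p : ℝ) + ε) * Fintype.card G := by
  obtain ⟨M, hM⟩ := dense_zero r p hr hp hpr ε hε
  obtain ⟨n₁, hn₁⟩ := exists_nat_gt ((r * M : ℝ) / ε)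
  refine ⟨n₁, ?_⟩
  intro G _ _ _ hq hn S hS
  classical
  set K := mulSub G r with hK
  have : Fintype (G ⧸ K) := Fintype.ofFinite _
  have hp' : (0 : ℝ) < p := by exact_mod_cast hp.pos
  have h4 := K.card_eq_card_quotient_mul_card_addSubgroup
  rw [Nat.card_eq_fintype_card, Nat.card_eq_fintype_card (α := G ⧸ K)] at h4
  have h4' : (Fintype.card G : ℝ) = Fintype.card (G ⧸ K) * Nat.card K := by
    rw [h4]; push_cast; rfl
  by_cases hcase : M ≤ Fintype.card (G ⧸ K)
  · set B : Finset (G ⧸ K) := S.image QuotientAddGroup.mk with hB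
    have hBlt : (B.card : ℝ) < (1 / (p : ℝ) + ε) * Fintype.card (G ⧸ K) := by
      by_contra hcon
      rw [not_lt] at hcon
      obtain ⟨T, hTB, hTc, hTs⟩ := hM (G ⧸ K) (quot_nsmul r) (prime_quot hq K) hcase B hcon
      have hch : ∀ q ∈ T, ∃ s ∈ S, (QuotientAddGroup.mk s : G ⧸ K) = q := by
        intro q hqT
        have := hTB hqT
        rw [hB, Finset.mem_image] at this
        exact this
      choose! f hf1 hf2 using hch
      have hinj : Set.InjOn f T := by
        intro a ha b hb h
        rw [← hf2 a ha, ← hf2 b hb, h]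
      apply hS (T.image f)
      · intro x hx
        rw [Finset.mem_image] at hx
        obtain ⟨q, hqT, rfl⟩ := hx
        exact hf1 q hqT
      · rw [Finset.card_image_of_injOn hinj, hTc]
      · rw [← mem_mulSub, ← hK, ← QuotientAddGroup.eq_zero_iff, Finset.sum_image hinj,
          QuotientAddGroup.mk_sum, Finset.sum_congr rfl hf2, hTs]
    have h5 : S.card ≤ B.card * Nat.card K := by
      rw [Finset.card_eq_sum_card_fiberwise (f := (QuotientAddGroup.mk : G → G ⧸ K))
        (t := B) (fun x hx => Finset.mem_coe.2 (Finset.mem_image_of_mem _ hx))]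
      refine (Finset.sum_le_card_nsmul _ _ _ (fun q _ => fiber_card K S q)).trans ?_
      rw [smul_eq_mul]
    have h6 : (S.card : ℝ) ≤ B.card * Nat.card K := by exact_mod_cast h5
    refine h6.trans ?_
    rw [h4', ← mul_assoc]
    exact mul_le_mul_of_nonneg_right hBlt.le (by positivity)
  · rw [not_le] at hcase
    have h5 := card_le_explicit hr hp hpr hq S hS
    have h6 : (mulSub G r).index = Fintype.card (G ⧸ K) := by
      rw [AddSubgroup.index, Nat.card_eq_fintype_card]
    rw [h6] at h5
    have h7 : (p : ℝ) * S.card ≤ Fintype.card G + p * r * Fintype.card (G ⧸ K) := by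
      exact_mod_cast h5
    have h8 : (Fintype.card (G ⧸ K) : ℝ) ≤ M := by exact_mod_cast hcase.le
    have h9 : (r * M : ℝ) < ε * Fintype.card G := by
      rw [div_lt_iff₀ hε] at hn₁
      have : (n₁ : ℝ) ≤ Fintype.card G := by exact_mod_cast hn
      nlinarith
    have h10 : (p : ℝ) * S.card ≤ p * ((1 / (p : ℝ) + ε) * Fintype.card G) := by
      have e : (p : ℝ) * ((1 / (p : ℝ) + ε) * Fintype.card G) =
          Fintype.card G + p * (ε * Fintype.card G) := by
        field_simp
      rw [e]
      have h11 : (p : ℝ) * r * Fintype.card (G ⧸ K) ≤ p * (r * M) := by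
        rw [mul_assoc]
        apply mul_le_mul_of_nonneg_left _ hp'.le
        exact mul_le_mul_of_nonneg_left h8 (by positivity)
      have h12 : (p : ℝ) * (r * M) ≤ p * (ε * Fintype.card G) :=
        mul_le_mul_of_nonneg_left h9.le hp'.le
      linarith
    exact le_of_mul_le_mul_left h10 hp'

end Pool.Agent.U920.CS
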