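import Pool.Agent.U920.CS.Step

/-! Popular sums and zero-sum subsets. -/

set_option autoImplicit false
set_option linter.unusedSectionVars false

open scoped Pointwise
open Finset

namespace Pool.Agent.U920.CS

open Pool.Agent.Helper450.Kneser

section pop

variable {Q : Type*} [AddCommGroup Q] [Fintype Q] [DecidableEq Q]

/-- `pop S θ j`: popular sums of `j + 1` elements of `S` -/
noncomputable def pop (S : Finset Q) (θ : ℝ) : ℕ → Finset Q
  | 0 => S
  | j + 1 => by
      classical
      exact univ.filter (fun z => θ * Fintype.card Q ≤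
        ((S.filter (fun s => z - s ∈ pop S θ j ∧ z - s ≠ s)).card : ℝ))

theorem mem_pop_succ {S : Finset Q} {θ : ℝ} {j : ℕ} {z : Q} :
    z ∈ pop S θ (j + 1) ↔ θ * Fintype.card Q ≤
        ((S.filter (fun s => z - s ∈ pop S θ j ∧ z - s ≠ s)).card : ℝ) := by
  classical
  simp [pop]

/-- a popular sum is the sum of a subset which avoids a given small set -/
theorem pop_choose {S : Finset Q} {θ : ℝ} (j : ℕ) : ∀ (z : Q) (F : Finset Q),
    z ∈ pop S θ (j + 1) → (2 * (F.card + j + 1) : ℝ) < θ * Fintype.card Q →
    ∃ T ⊆ S, T.card = j + 2 ∧ Disjoint T F ∧ ∑ x ∈ T, x = z := by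
  classical
  induction j with
  | zero =>
    intro z F hz hF
    rw [mem_pop_succ] at hz
    set X := S.filter (fun s => z - s ∈ pop S θ 0 ∧ z - s ≠ s) with hX
    have hcard : (F ∪ F.image (fun x => z - x)).card < X.card := by
      have h1 : (F ∪ F.image (fun x => z - x)).card ≤ 2 * F.card := by
        refine (Finset.card_union_le _ _).trans ?_
        have := Finset.card_image_le (s := F) (f := fun x => z - x)
        omega
      have h2 : ((2 * F.card : ℕ) : ℝ) < X.card := by
        push_cast
        push_cast at hF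
        linarith
      have h3 : 2 * F.card < X.card := by exact_mod_cast h2
      omega
    obtain ⟨s, hsX, hsF⟩ := Finset.exists_mem_notMem_of_card_lt_card hcard
    rw [hX, Finset.mem_filter] at hsX
    obtain ⟨hsS, hz1, hz2⟩ := hsX
    rw [Finset.mem_union, not_or, Finset.mem_image, not_exists] at hsF
    have hne : s ≠ z - s := fun h => hz2 h.symm
    refine ⟨{s, z - s}, ?_, ?_, ?_, ?_⟩
    · intro x hx
      rw [Finset.mem_insert, Finset.mem_singleton] at hx
      rcases hx with rfl | rfl
      · exact hsS
      · exact hz1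
    · rw [Finset.card_pair hne]
    · rw [Finset.disjoint_left]
      intro x hx hxF
      rw [Finset.mem_insert, Finset.mem_singleton] at hx
      rcases hx with rfl | rfl
      · exact hsF.1 hxF
      · exact hsF.2 (z - s) ⟨hxF, by abel⟩
    · rw [Finset.sum_pair hne]
      abel
  | succ j ih =>
    intro z F hz hF
    rw [mem_pop_succ] at hz
    set X := S.filter (fun s => z - s ∈ pop S θ (j + 1) ∧ z - s ≠ s) with hX
    have hcard : F.card < X.card := by
      have h2 : (F.card : ℝ) < X.card := by
        push_cast at hF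
        have : (0 : ℝ) ≤ F.card := by positivity
        have : (0 : ℝ) ≤ j := by positivity
        linarith
      exact_mod_cast h2
    obtain ⟨s, hsX, hsF⟩ := Finset.exists_mem_notMem_of_card_lt_card hcard
    rw [hX, Finset.mem_filter] at hsX
    obtain ⟨hsS, hz1, hz2⟩ := hsX
    obtain ⟨T, hTS, hTc, hTd, hTs⟩ := ih (z - s) (insert s F) hz1 (by
      rw [Finset.card_insert_of_notMem hsF]
      push_cast at hF ⊢
      linarith)
    have hsT : s ∉ T := fun h => (Finset.disjoint_left.1 hTd h) (Finset.mem_insert_self _ _)
    refine ⟨insert s T, ?_, ?_, ?_, ?_⟩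
    · intro x hx
      rw [Finset.mem_insert] at hx
      rcases hx with rfl | hx
      · exact hsS
      · exact hTS hx
    · rw [Finset.card_insert_of_notMem hsT, hTc]
    · rw [Finset.disjoint_left]
      intro x hx hxF
      rw [Finset.mem_insert] at hx
      rcases hx with rfl | hx
      · exact hsF hxF
      · exact (Finset.disjoint_left.1 hTd hx) (Finset.mem_insert_of_mem hxF)
    · rw [Finset.sum_insert hsT, hTs]
      abel

/-- few pairs have an unpopular sum -/
theorem few_pairs (S : Finset Q) (θ : ℝ) (hθ : 0 ≤ θ) (j : ℕ) :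
    ((((S.image (fun s => -s)) ×ˢ (pop S θ j)).filter
      (fun q => q.2 - q.1 ∉ pop S θ (j + 1))).card : ℝ) ≤
      θ * (Fintype.card Q : ℝ) ^ 2 + Fintype.card Q := by
  classical
  set W := ((S.image (fun s => -s)) ×ˢ (pop S θ j)).filter
      (fun q => q.2 - q.1 ∉ pop S θ (j + 1)) with hW
  -- pairs with equal entries
  have hsplit : W.card ≤ (univ.filter (fun z => z ∉ pop S θ (j + 1))).sum
      (fun z => (S.filter (fun s => z - s ∈ pop S θ j ∧ z - s ≠ s)).card) + Fintype.card Q := by
    have h1 : W.card = (W.filter (fun q => q.2 ≠ -q.1)).card +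
        (W.filter (fun q => ¬ q.2 ≠ -q.1)).card :=
      (Finset.card_filter_add_card_filter_not _).symm
    have h2 : (W.filter (fun q => ¬ q.2 ≠ -q.1)).card ≤ Fintype.card Q := by
      rw [← Finset.card_univ]
      apply Finset.card_le_card_of_injOn (fun q => q.1) (fun _ _ => Finset.mem_coe.2 (mem_univ _))
      rintro ⟨a, b⟩ h ⟨a', b'⟩ h' he
      simp only [Finset.coe_filter, Set.mem_ofPred_eq, not_not] at h h'
      simp only at he
      rw [h.2, h'.2, he]
    have h3 : (W.filter (fun q => q.2 ≠ -q.1)).card ≤
        (univ.filter (fun z => z ∉ pop S θ (j + 1))).sum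
        (fun z => (S.filter (fun s => z - s ∈ pop S θ j ∧ z - s ≠ s)).card) := by
      rw [← Finset.card_sigma]
      apply Finset.card_le_card_of_injOn (fun q => (⟨q.2 - q.1, -q.1⟩ : Σ _ : Q, Q))
      · rintro ⟨a, b⟩ h
        simp only [hW, Finset.coe_filter, Set.mem_ofPred_eq, Finset.mem_filter,
          Finset.mem_product, Finset.mem_image] at h
        obtain ⟨⟨⟨⟨s, hs, hsa⟩, hb⟩, hn⟩, hne⟩ := h
        subst hsa
        simp only [Finset.coe_sigma, Set.mem_sigma_iff, Finset.mem_coe, Finset.mem_filter,
          mem_univ, true_and, neg_neg] at *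
        refine ⟨hn, hs, ?_, ?_⟩
        · simpa using hb
        · simpa using hne
      · rintro ⟨a, b⟩ _ ⟨a', b'⟩ _ he
        simp only [Sigma.mk.injEq, heq_eq_eq] at he
        obtain ⟨h1, h2⟩ := he
        have h3 : a = a' := neg_injective h2
        subst h3
        have : b = b' := by
          have := congrArg (fun t => t + a) h1
          simpa using this
        rw [this]
    omega
  have hsum : (((univ.filter (fun z => z ∉ pop S θ (j + 1))).sum
      (fun z => (S.filter (fun s => z - s ∈ pop S θ j ∧ z - s ≠ s)).card) : ℕ) : ℝ) ≤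
      θ * (Fintype.card Q : ℝ) ^ 2 := by
    push_cast
    have h1 : ∀ z ∈ univ.filter (fun z => z ∉ pop S θ (j + 1)),
        ((S.filter (fun s => z - s ∈ pop S θ j ∧ z - s ≠ s)).card : ℝ) ≤
          θ * Fintype.card Q := by
      intro z hz
      rw [Finset.mem_filter, mem_pop_succ, not_le] at hz
      exact hz.2.le
    refine (Finset.sum_le_card_nsmul _ _ _ h1).trans ?_
    rw [nsmul_eq_mul]
    have h2 : ((univ.filter (fun z => z ∉ pop S θ (j + 1))).card : ℝ) ≤ Fintype.card Q := by
      exact_mod_cast Finset.card_le_univ _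
    have h3 : 0 ≤ θ * (Fintype.card Q : ℝ) := by positivity
    calc _ ≤ (Fintype.card Q : ℝ) * (θ * Fintype.card Q) := mul_le_mul_of_nonneg_right h2 h3
      _ = _ := by ring
  have : ((W.card : ℕ) : ℝ) ≤ (((univ.filter (fun z => z ∉ pop S θ (j + 1))).sum
      (fun z => (S.filter (fun s => z - s ∈ pop S θ j ∧ z - s ≠ s)).card) + Fintype.card Q : ℕ) : ℝ) := by
    exact_mod_cast hsplit
  rw [Nat.cast_add] at this
  linarith

end pop

/-- **Zero sums in dense sets.** -/
theorem dense_zero (r p : ℕ) (hr : 2 ≤ r) (hp : p.Prime) (hpr : p ∣ r) (ε : ℝ) (hε : 0 < ε) :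
    ∃ n₀ : ℕ, ∀ (Q : Type) [AddCommGroup Q] [Fintype Q] [DecidableEq Q],
      (∀ x : Q, r • x = 0) →
      (∀ q : ℕ, q.Prime → q ∣ r → q ∣ Fintype.card Q → p ≤ q) →
      n₀ ≤ Fintype.card Q → ∀ S : Finset Q,
      (1 / (p : ℝ) + ε) * Fintype.card Q ≤ S.card →
      ∃ T ⊆ S, T.card = r + 1 ∧ ∑ x ∈ T, x = 0 := by
  have hp' : (0 : ℝ) < p := by exact_mod_cast hp.pos
  have hr' : (2 : ℝ) ≤ r := by exact_mod_cast hr
  set η : ℝ := min (ε / 2) (1 / (4 * p * (r + 1))) with hη
  have hη0 : 0 < η := by
    rw [hη]
    apply lt_min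
    · positivity
    · positivity
  have hη1 : η < ε := by
    have : η ≤ ε / 2 := min_le_left _ _
    linarith
  have hη2 : η * (4 * (r + 1)) ≤ 1 / p := by
    have h1 : η ≤ 1 / (4 * p * (r + 1)) := min_le_right _ _
    calc η * (4 * (r + 1)) ≤ 1 / (4 * p * (r + 1)) * (4 * (r + 1)) :=
          mul_le_mul_of_nonneg_right h1 (by positivity)
      _ = 1 / p := by field_simp
  obtain ⟨c, hc, hrem⟩ := Pool.Agent.N646.AC.removal η hη0
  set θ : ℝ := c / 2 with hθ
  have hθ0 : 0 < θ := by positivity
  obtain ⟨n₀, hn₀⟩ := exists_nat_gt (max (1 / θ) (2 * (r + 1) / θ))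
  refine ⟨n₀, ?_⟩
  intro Q _ _ _ hQ hq hn S hS
  set n : ℝ := (Fintype.card Q : ℝ) with hnn
  have hn1 : max (1 / θ) (2 * (r + 1) / θ) < n := by
    have : (n₀ : ℝ) ≤ n := by rw [hnn]; exact_mod_cast hn
    linarith
  have hn2 : 1 / θ < n := (le_max_left _ _).trans_lt hn1
  have hn3 : 2 * (r + 1) / θ < n := (le_max_right _ _).trans_lt hn1
  have hnpos : 0 < n := lt_trans (by positivity) hn2
  have hθn : 1 < θ * n := by
    rw [div_lt_iff₀ hθ0] at hn2
    linarith
  have hθn2 : 2 * (r + 1) < θ * n := by
    rw [div_lt_iff₀ hθ0] at hn3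
    linarith
  have hbeta := beta_pos (r := r) hp.pos
  -- growth
  have grow : ∀ j : ℕ, j ≤ r →
      min n ((1 / p + j * beta r p) * n) - 2 * j * η * n ≤ ((pop S θ j).card : ℝ) := by
    intro j
    induction j with
    | zero =>
      intro _
      have h1 : min n ((1 / p + ((0 : ℕ) : ℝ) * beta r p) * n) ≤ (1 / p + ε) * n := by
        refine (min_le_right _ _).trans ?_
        push_cast
        rw [zero_mul, add_zero]
        apply mul_le_mul_of_nonneg_right _ hnpos.le
        linarith
      have h2 : ((pop S θ 0).card : ℝ) = S.card := rfl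
      rw [h2]
      push_cast
      push_cast at h1
      linarith
    | succ j ih =>
      intro hj
      have ih := ih (by omega)
      have hjr : (j : ℝ) + 1 ≤ r := by exact_mod_cast hj
      have hj0 : (0 : ℝ) ≤ j := by positivity
      have hfew : ((((S.image (fun s => -s)) ×ˢ (pop S θ j)).filter
          (fun q => q.2 - q.1 ∉ pop S θ (j + 1))).card : ℝ) ≤ c * (Fintype.card Q : ℝ) ^ 2 := by
        refine (few_pairs S θ hθ0.le j).trans ?_
        rw [← hnn]
        have h1 : 1 * n ≤ θ * n * n := mul_le_mul_of_nonneg_right hθn.le hnpos.le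
        have h2 : c * n ^ 2 = θ * n ^ 2 + θ * n * n := by rw [hθ]; ring
        rw [h2]
        linarith
      obtain ⟨X', hX', Y', hY', E, hXd, hYd, hE, hXY⟩ := hrem Q _ _ _ hfew
      rw [← hnn] at hXd hYd hE
      set B : Finset Q := X'.image (fun x => -x) with hB
      have hBcard : B.card = X'.card := Finset.card_image_of_injective _ neg_injective
      have hScard : (S.image (fun s => -s)).card = S.card :=
        Finset.card_image_of_injective _ neg_injective
      have hX'c : (S.card : ℝ) ≤ X'.card + η * n := by
        have h1 := Finset.card_sdiff_add_card_eq_card hX'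
        rw [hScard] at h1
        have h2 : ((S.image (fun s => -s) \ X').card : ℝ) + X'.card = S.card := by
          exact_mod_cast h1
        linarith
      have hY'c : ((pop S θ j).card : ℝ) ≤ Y'.card + η * n := by
        have h1 := Finset.card_sdiff_add_card_eq_card hY'
        have h2 : ((pop S θ j \ Y').card : ℝ) + Y'.card = (pop S θ j).card := by
          exact_mod_cast h1
        linarith
      have hBbig : Fintype.card Q < p * B.card := by
        have h1 : n < p * X'.card := by
          have h2 : (1 / p + ε - η) * n ≤ X'.card := by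
            have e : (1 / p + ε - η) * n = (1 / p + ε) * n - η * n := by ring
            rw [e]
            linarith
          have h3 : p * ((1 / p + ε - η) * n) ≤ p * X'.card :=
            mul_le_mul_of_nonneg_left h2 hp'.le
          have h4 : p * ((1 / p + ε - η) * n) = n + p * (ε - η) * n := by
            have : (p : ℝ) * (1 / p) = 1 := by field_simp
            linear_combination n * this
          have h5 : 0 < p * (ε - η) * n := by
            apply mul_pos (mul_pos hp' (by linarith)) hnpos
          linarith
        rw [hBcard]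
        rw [hnn] at h1
        exact_mod_cast h1
      have hY'ne : Y'.Nonempty := by
        rw [← Finset.card_pos]
        have h1 : 0 < (Y'.card : ℝ) := by
          have h2 : 1 / (p : ℝ) * n ≤ min n ((1 / p + j * beta r p) * n) := by
            apply le_min
            · have : 1 / (p : ℝ) ≤ 1 := by
                rw [div_le_one hp']
                exact_mod_cast hp.one_lt.le
              have := mul_le_mul_of_nonneg_right this hnpos.le
              rwa [one_mul] at this
            · apply mul_le_mul_of_nonneg_right _ hnpos.le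
              have : 0 ≤ (j : ℝ) * beta r p := by positivity
              linarith
          have h3 : 2 * j * η * n + η * n < 1 / p * n := by
            have h5 : 2 * (j : ℝ) + 1 < 4 * (r + 1) := by linarith
            have h6 : η * (2 * (j : ℝ) + 1) < η * (4 * (r + 1)) := mul_lt_mul_of_pos_left h5 hη0
            have h7 : η * (2 * (j : ℝ) + 1) < 1 / p := h6.trans_le hη2
            have h8 := mul_lt_mul_of_pos_right h7 hnpos
            linarith
          linarith
        exact_mod_cast h1
      have hstep := step hp hQ hq Y' B hY'ne hBbig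
      rw [← hnn] at hstep
      have hsub : Y' + B ⊆ pop S θ (j + 1) ∪ E := by
        intro z hz
        rw [Finset.mem_add] at hz
        obtain ⟨y, hy, b, hb, rfl⟩ := hz
        rw [hB, Finset.mem_image] at hb
        obtain ⟨x, hx, rfl⟩ := hb
        rw [Finset.mem_union]
        have := hXY x hx y hy
        rwa [sub_eq_add_neg] at this
      have hcardle : ((Y' + B).card : ℝ) ≤ (pop S θ (j + 1)).card + E.card := by
        have := (Finset.card_le_card hsub).trans (Finset.card_union_le _ _)
        exact_mod_cast this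
      have hmin : min n ((1 / p + ((j + 1 : ℕ) : ℝ) * beta r p) * n) - 2 * j * η * n - η * n ≤
          min n (Y'.card + beta r p * n) := by
        apply le_min
        · have : min n ((1 / p + ((j + 1 : ℕ) : ℝ) * beta r p) * n) ≤ n := min_le_left _ _
          have h2 : 0 ≤ 2 * (j : ℝ) * η * n := by positivity
          have h3 : 0 ≤ η * n := by positivity
          linarith
        · have h1 : min n ((1 / p + ((j + 1 : ℕ) : ℝ) * beta r p) * n) ≤
              min n ((1 / p + j * beta r p) * n) + beta r p * n := by
            rw [← min_add_add_right]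
            apply min_le_min
            · have : 0 ≤ beta r p * n := by positivity
              linarith
            · push_cast
              apply le_of_eq
              ring
          linarith
      push_cast at hmin ⊢
      linarith
  -- the last level
  obtain ⟨k, rfl⟩ : ∃ k, r = k + 2 := ⟨r - 2, by omega⟩
  have hlast := grow (k + 1) (by omega)
  have hfull := beta_full hp.pos hpr (by omega : 0 < k + 2)
  have e1 : k + 2 - 1 = k + 1 := by omega
  rw [e1] at hfull
  have hmin : n ≤ min n ((1 / p + ((k + 1 : ℕ) : ℝ) * beta (k + 2) p) * n) := by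
    apply le_min le_rfl
    have := mul_le_mul_of_nonneg_right hfull hnpos.le
    rwa [one_mul] at this
  have hkr : (k : ℝ) + 1 ≤ ((k + 2 : ℕ) : ℝ) := by push_cast; linarith
  have hlt : n < ((pop S θ (k + 1)).card : ℝ) + (S.image (fun s => -s)).card := by
    rw [Finset.card_image_of_injective _ neg_injective]
    have h5 : 2 * ((k + 1 : ℕ) : ℝ) < 4 * (((k + 2 : ℕ) : ℝ) + 1) := by
      push_cast; linarith
    have h6 : η * (2 * ((k + 1 : ℕ) : ℝ)) < η * (4 * (((k + 2 : ℕ) : ℝ) + 1)) :=
      mul_lt_mul_of_pos_left h5 hη0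
    have h7 : η * (2 * ((k + 1 : ℕ) : ℝ)) < 1 / p := h6.trans_le hη2
    have h8 := mul_lt_mul_of_pos_right h7 hnpos
    have h9 : 1 / (p : ℝ) * n ≤ S.card := by
      refine le_trans ?_ hS
      apply mul_le_mul_of_nonneg_right _ hnpos.le
      linarith
    linarith
  have hinter : ((pop S θ (k + 1)) ∩ (S.image (fun s => -s))).Nonempty := by
    rw [← Finset.card_pos]
    have h1 := Finset.card_union_add_card_inter (pop S θ (k + 1)) (S.image (fun s => -s))
    have h2 : ((pop S θ (k + 1)) ∪ (S.image (fun s => -s))).card ≤ Fintype.card Q :=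
      Finset.card_le_univ _
    have h3 : Fintype.card Q < (pop S θ (k + 1)).card + (S.image (fun s => -s)).card := by
      rw [hnn] at hlt
      exact_mod_cast hlt
    omega
  obtain ⟨z, hz⟩ := hinter
  rw [Finset.mem_inter, Finset.mem_image] at hz
  obtain ⟨hz1, t, htS, rfl⟩ := hz
  obtain ⟨T, hTS, hTc, hTd, hTs⟩ := pop_choose k (-t) {t} hz1 (by
    rw [Finset.card_singleton]
    push_cast at hθn2 ⊢
    linarith)
  have htT : t ∉ T := fun h => (Finset.disjoint_left.1 hTd h) (Finset.mem_singleton_self _)
  refine ⟨insert t T, ?_, ?_, ?_⟩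
  · intro x hx
    rw [Finset.mem_insert] at hx
    rcases hx with rfl | hx
    · exact htS
    · exact hTS hx
  · rw [Finset.card_insert_of_notMem htT, hTc]
  · rw [Finset.sum_insert htT, hTs, add_neg_cancel]

end Pool.Agent.U920.CS
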