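import Pool.Agent.U920.CS.Main

/-! Extremal Cayley sum hypergraphs and the numbers of edges. -/

set_option autoImplicit false
set_option linter.unusedSectionVars false

open Finset

namespace Pool.Agent.U920.CS

variable {G : Type} [AddCommGroup G] [Fintype G] [DecidableEq G]

theorem exists_functional0 (p : ℕ) [Fact p.Prime] (Q : Type) [AddCommGroup Q] [Module (ZMod p) Q]
    (x : Q) (hx : x ≠ 0) : ∃ φ : Q →+ ZMod p, φ x ≠ 0 := by
  obtain ⟨φ, h⟩ := Module.Projective.exists_dual_ne_zero (ZMod p) hx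
  exact ⟨LinearMap.toAddMonoidHom φ, h⟩

theorem exists_functional {p : ℕ} (hp : p.Prime) (Q : Type) [AddCommGroup Q]
    (hQ : ∀ x : Q, p • x = 0) (x : Q) (hx : x ≠ 0) : ∃ φ : Q →+ ZMod p, φ x ≠ 0 := by
  have := Fact.mk hp
  let _ : Module (ZMod p) Q := AddCommGroup.zmodModule hQ
  exact exists_functional0 p Q x hx

theorem exists_char {p : ℕ} (hp : p.Prime) (hG : p ∣ Fintype.card G) :
    ∃ χ : G →+ ZMod p, Function.Surjective χ := by
  classical
  have := Fact.mk hp
  set K := mulSub G p with hK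
  have hne : ∃ g : G, g ∉ K := by
    by_contra hcon
    push Not at hcon
    have hsurj : Function.Surjective (fun g : G => p • g) := by
      intro x
      obtain ⟨g, hg⟩ := mem_mulSub.1 (hcon x)
      exact ⟨g, hg.symm⟩
    have hinj := Finite.injective_iff_surjective.2 hsurj
    obtain ⟨x, hx⟩ := exists_prime_addOrderOf_dvd_card p hG
    have h1 : p • x = 0 := by rw [← hx]; exact addOrderOf_nsmul_eq_zero x
    have h2 : x = 0 := hinj (by simp only [h1, smul_zero])
    rw [h2, addOrderOf_zero] at hx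
    exact hp.one_lt.ne hx
  obtain ⟨g, hg⟩ := hne
  have hgne : (QuotientAddGroup.mk g : G ⧸ K) ≠ 0 := by
    rw [Ne, QuotientAddGroup.eq_zero_iff]
    exact hg
  obtain ⟨φ, hφ⟩ := exists_functional hp (G ⧸ K) (quot_nsmul p) _ hgne
  refine ⟨φ.comp (QuotientAddGroup.mk' K), ?_⟩
  intro a
  refine ⟨(a / φ (QuotientAddGroup.mk g)).val • g, ?_⟩
  rw [map_nsmul]
  have h2 : (φ.comp (QuotientAddGroup.mk' K)) g = φ (QuotientAddGroup.mk g) := rfl
  rw [h2, nsmul_eq_mul, ZMod.natCast_val, ZMod.cast_id', id, div_mul_cancel₀ _ hφ]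

theorem sharp {r p : ℕ} (hp : p.Prime) (hpr : p ∣ r) (hG : p ∣ Fintype.card G) :
    ∃ S : Finset G, NoClique r (cayleySum r S) ∧ p * S.card = Fintype.card G := by
  have := Fact.mk hp
  obtain ⟨χ, hχ⟩ := exists_char hp hG
  refine ⟨univ.filter (fun g => χ g = 1), ?_, ?_⟩
  · rw [noClique_iff]
    rintro T hT hTc ⟨g, hg⟩
    have h1 := congrArg χ hg
    rw [map_sum, map_nsmul, Finset.sum_congr rfl (fun x hx => (Finset.mem_filter.1 (hT hx)).2),
      Finset.sum_const, hTc, nsmul_eq_mul, nsmul_eq_mul, mul_one] at h1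
    have h2 : ((r : ℕ) : ZMod p) = 0 := (ZMod.natCast_eq_zero_iff r p).2 hpr
    push_cast at h1
    rw [h2, zero_mul, zero_add] at h1
    exact one_ne_zero h1
  · have h1 : Fintype.card G = ∑ a : ZMod p, (univ.filter (fun g => χ g = a)).card := by
      rw [← Finset.card_univ]
      exact Finset.card_eq_sum_card_fiberwise (fun _ _ => Finset.mem_coe.2 (Finset.mem_univ _))
    rw [h1, Finset.sum_congr rfl (fun a _ => AddMonoidHom.card_fiber_eq_of_mem_range χ (x := a)
      (y := 1) (hχ a) (hχ 1)), Finset.sum_const, Finset.card_univ, ZMod.card, smul_eq_mul]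

theorem coprime_case {r : ℕ} (hG : (Fintype.card G).Coprime r) (S : Finset G) :
    NoClique r (cayleySum r S) ↔ S.card ≤ r := by
  rw [noClique_iff]
  constructor
  · intro h
    by_contra hcon
    obtain ⟨T, hTS, hT⟩ := Finset.exists_subset_card_eq (by omega : r + 1 ≤ S.card)
    apply h T hTS hT
    rw [← Nat.card_eq_fintype_card] at hG
    obtain ⟨g, hg⟩ := (nsmulCoprime hG).surjective (∑ x ∈ T, x)
    exact ⟨g, hg.symm⟩
  · intro h T hTS hT
    have := Finset.card_le_card hTS
    omega

theorem edges_le_of_card {r : ℕ} (hr : 2 ≤ r) (S : Finset G) {a b : ℝ} (ha : 0 ≤ a) (hab : a < b)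
    (hn : b * r ≤ (b - a) * Fintype.card G) (hS : (S.card : ℝ) ≤ a * Fintype.card G) :
    ((cayleySum r S).card : ℝ) ≤ b * ((Fintype.card G).choose r : ℝ) := by
  obtain ⟨k, rfl⟩ : ∃ k, r = k + 1 := ⟨r - 1, by omega⟩
  have h1 := edges_upper k S
  have h1' : ((k : ℝ) + 1) * (cayleySum (k + 1) S).card ≤
      ((Fintype.card G).choose k : ℝ) * S.card := by exact_mod_cast h1
  have hkn : k ≤ Fintype.card G := by
    have h2 : (b - a) * Fintype.card G ≤ b * Fintype.card G := by
      apply mul_le_mul_of_nonneg_right _ (by positivity)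
      linarith
    have h3 : b * ((k + 1 : ℕ) : ℝ) ≤ b * Fintype.card G := hn.trans h2
    have h4 := le_of_mul_le_mul_left h3 (lt_of_le_of_lt ha hab)
    have h5 : k + 1 ≤ Fintype.card G := by exact_mod_cast h4
    omega
  have h2 := Nat.choose_succ_right_eq (Fintype.card G) k
  have h2' : ((Fintype.card G).choose (k + 1) : ℝ) * (k + 1) =
      (Fintype.card G).choose k * ((Fintype.card G : ℝ) - k) := by
    have h5 : (((Fintype.card G).choose (k + 1) * (k + 1) : ℕ) : ℝ) =
        (((Fintype.card G).choose k * (Fintype.card G - k) : ℕ) : ℝ) := by rw [h2]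
    rw [Nat.cast_mul, Nat.cast_mul, Nat.cast_sub hkn] at h5
    push_cast at h5
    exact h5
  have h3 : a * Fintype.card G ≤ b * ((Fintype.card G : ℝ) - k) := by
    push_cast at hn
    have : 0 < b := lt_of_le_of_lt ha hab
    linarith
  have h4 : ((k : ℝ) + 1) * (cayleySum (k + 1) S).card ≤
      (k + 1) * (b * ((Fintype.card G).choose (k + 1) : ℝ)) := by
    calc ((k : ℝ) + 1) * (cayleySum (k + 1) S).card
        ≤ ((Fintype.card G).choose k : ℝ) * S.card := h1'
      _ ≤ ((Fintype.card G).choose k : ℝ) * (b * ((Fintype.card G : ℝ) - k)) :=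
          mul_le_mul_of_nonneg_left (hS.trans h3) (by positivity)
      _ = b * (((Fintype.card G).choose k : ℝ) * ((Fintype.card G : ℝ) - k)) := by ring
      _ = (k + 1) * (b * ((Fintype.card G).choose (k + 1) : ℝ)) := by rw [← h2']; ring
  exact le_of_mul_le_mul_left h4 (by positivity)

theorem edges_ge_of_card {r : ℕ} (hr : 2 ≤ r) (S : Finset G) {a b : ℝ} (hb : a < b)
    (hn : 2 * r ≤ (b - a) * Fintype.card G)
    (hb2 : b ≤ 1)
    (hS : (S.card : ℝ) = b * Fintype.card G) (hbig : r ≤ Fintype.card G) :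
    a * ((Fintype.card G).choose r : ℝ) ≤ ((cayleySum r S).card : ℝ) := by
  obtain ⟨k, rfl⟩ : ∃ k, r = k + 1 := ⟨r - 1, by omega⟩
  rcases le_or_gt a 0 with ha0 | ha0
  · exact (mul_nonpos_of_nonpos_of_nonneg ha0 (by positivity)).trans (by positivity)
  have h1 := edges_lower k S
  have h1' : ((Fintype.card G).choose k : ℝ) * S.card ≤
      ((k : ℝ) + 1) * (cayleySum (k + 1) S).card + (Fintype.card G).choose k * k := by
    exact_mod_cast h1
  have hkn : k ≤ Fintype.card G := by omega
  have h2 := Nat.choose_succ_right_eq (Fintype.card G) k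
  have h2' : ((Fintype.card G).choose (k + 1) : ℝ) * (k + 1) =
      (Fintype.card G).choose k * ((Fintype.card G : ℝ) - k) := by
    have h5 : (((Fintype.card G).choose (k + 1) * (k + 1) : ℕ) : ℝ) =
        (((Fintype.card G).choose k * (Fintype.card G - k) : ℕ) : ℝ) := by rw [h2]
    rw [Nat.cast_mul, Nat.cast_mul, Nat.cast_sub hkn] at h5
    push_cast at h5
    exact h5
  have h3 : a * ((Fintype.card G : ℝ) - k) ≤ S.card - k := by
    rw [hS]
    push_cast at hn
    have h0 : (0 : ℝ) ≤ k := by positivity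
    nlinarith
  have h4 : ((k : ℝ) + 1) * (a * ((Fintype.card G).choose (k + 1) : ℝ)) ≤
      (k + 1) * (cayleySum (k + 1) S).card := by
    calc ((k : ℝ) + 1) * (a * ((Fintype.card G).choose (k + 1) : ℝ))
        = a * (((Fintype.card G).choose k : ℝ) * ((Fintype.card G : ℝ) - k)) := by
          rw [← h2']; ring
      _ = ((Fintype.card G).choose k : ℝ) * (a * ((Fintype.card G : ℝ) - k)) := by ring
      _ ≤ ((Fintype.card G).choose k : ℝ) * (S.card - k) :=
          mul_le_mul_of_nonneg_left h3 (by positivity)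
      _ ≤ (k + 1) * (cayleySum (k + 1) S).card := by linarith
  exact le_of_mul_le_mul_left h4 (by positivity)

end Pool.Agent.U920.CS
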