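import Mathlib
import Pool.Agent.Helper450.Kneser
import Pool.Agent.N646.AC.Rem

/-! Sumset growth in a finite abelian group of exponent dividing `r`, and popular sums. -/

set_option autoImplicit false
set_option linter.unusedSectionVars false

open scoped Pointwise
open Finset

namespace Pool.Agent.U920.CS

open Pool.Agent.Helper450.Kneser

/-- the gain in one step -/
noncomputable def beta (r p : ℕ) : ℝ := if r = p then 1 / p else 1 / (2 * p)

theorem beta_pos {r p : ℕ} (hp : 0 < p) : 0 < beta r p := by
  unfold beta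
  have : (0 : ℝ) < p := by exact_mod_cast hp
  split_ifs <;> positivity

theorem beta_full {r p : ℕ} (hp : 0 < p) (hpr : p ∣ r) (hr : 0 < r) :
    1 ≤ 1 / (p : ℝ) + ((r - 1 : ℕ) : ℝ) * beta r p := by
  have hp' : (0 : ℝ) < p := by exact_mod_cast hp
  have e : ((r - 1 : ℕ) : ℝ) = (r : ℝ) - 1 := by
    rw [Nat.cast_sub hr, Nat.cast_one]
  unfold beta
  rw [e]
  split_ifs with h
  · subst h
    have : 1 / (r : ℝ) + ((r : ℝ) - 1) * (1 / r) = 1 := by field_simp; ring
    rw [this]
  · obtain ⟨k, rfl⟩ := hpr
    have hk : 2 ≤ k := by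
      rcases k with _ | _ | k
      · simp at hr
      · simp at h
      · omega
    have hk' : (2 : ℝ) ≤ k := by exact_mod_cast hk
    push_cast
    have : 1 / (p : ℝ) + ((p : ℝ) * k - 1) * (1 / (2 * p)) = 1 / (2 * p) + k / 2 := by
      field_simp; ring
    rw [this]
    have : 0 < 1 / (2 * (p : ℝ)) := by positivity
    linarith

variable {Q : Type*} [AddCommGroup Q] [Fintype Q] [DecidableEq Q]

theorem index_gain {r p : ℕ} (hp : p.Prime)
    (hQ : ∀ x : Q, r • x = 0)
    (hq : ∀ q : ℕ, q.Prime → q ∣ r → q ∣ Fintype.card Q → p ≤ q)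
    (H : AddSubgroup Q) (hH : H.index ≠ 1) (b : ℕ) (hb : H.index < p * b) :
    beta r p * H.index ≤ (b : ℝ) - 1 := by
  have hp' : (0 : ℝ) < p := by exact_mod_cast hp.pos
  have hprime : ∀ q : ℕ, q.Prime → q ∣ H.index → q ∣ r ∧ p ≤ q := by
    intro q hqp hqm
    have h1 : q ∣ Fintype.card Q := by
      rw [← Nat.card_eq_fintype_card]
      exact hqm.trans H.index_dvd_card
    have := Fact.mk hqp
    obtain ⟨x, hx⟩ := exists_prime_addOrderOf_dvd_card q h1
    have h2 : q ∣ r := by
      rw [← hx]
      exact addOrderOf_dvd_of_nsmul_eq_zero (hQ x)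
    exact ⟨h2, hq q hqp h2 h1⟩
  have hm : p ≤ H.index :=
    ((hprime _ (Nat.minFac_prime hH) (Nat.minFac_dvd _)).2).trans
      (Nat.minFac_le (Nat.pos_of_ne_zero H.index_ne_zero_of_finite))
  unfold beta
  split_ifs with h
  · subst h
    have h1 := (hprime _ (Nat.minFac_prime hH) (Nat.minFac_dvd _)).1
    have h2 : H.index.minFac = r := (Nat.prime_dvd_prime_iff_eq (Nat.minFac_prime hH) hp).1 h1
    obtain ⟨k, hk⟩ : r ∣ H.index := by
      have := Nat.minFac_dvd H.index
      rwa [h2] at this
    rw [hk] at hb ⊢
    have hkb : k < b := lt_of_mul_lt_mul_left hb (Nat.zero_le _)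
    have : (k : ℝ) + 1 ≤ b := by exact_mod_cast hkb
    push_cast
    have e : 1 / (r : ℝ) * (r * k) = k := by field_simp
    rw [e]
    linarith
  · have hb2 : 2 ≤ b := by
      by_contra hcon
      have : b ≤ 1 := by omega
      have : p * b ≤ p * 1 := Nat.mul_le_mul_left _ this
      omega
    have h1 : (H.index : ℝ) ≤ p * b := by exact_mod_cast hb.le
    have h2 : (2 : ℝ) ≤ b := by exact_mod_cast hb2
    rw [div_mul_eq_mul_div, one_mul, div_le_iff₀ (by positivity)]
    nlinarith

/-- a set of the form `B + H` is a union of cosets -/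
theorem card_add_fs (B : Finset Q) (H : AddSubgroup Q) :
    ∃ b : ℕ, (B + fs H).card = b * (fs H).card := by
  classical
  refine ⟨(B.image (QuotientAddGroup.mk : Q → Q ⧸ H)).card, ?_⟩
  rw [Finset.card_eq_sum_card_fiberwise (f := (QuotientAddGroup.mk : Q → Q ⧸ H))
    (t := B.image (QuotientAddGroup.mk : Q → Q ⧸ H))]
  · rw [Finset.sum_const_nat (m := (fs H).card)]
    intro q hq
    rw [Finset.mem_image] at hq
    obtain ⟨b, hb, rfl⟩ := hq
    have : (B + fs H).filter (fun a => (QuotientAddGroup.mk a : Q ⧸ H) = QuotientAddGroup.mk b)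
        = (fs H).image (fun h => b + h) := by
      ext x
      rw [Finset.mem_filter, Finset.mem_image]
      constructor
      · rintro ⟨-, hx⟩
        rw [QuotientAddGroup.eq] at hx
        refine ⟨-b + x, mem_fs.mpr ?_, by abel⟩
        have := H.neg_mem hx
        rwa [neg_add_rev, neg_neg] at this
      · rintro ⟨h, hh, rfl⟩
        refine ⟨Finset.add_mem_add hb hh, ?_⟩
        rw [QuotientAddGroup.eq]
        have := H.neg_mem (mem_fs.mp hh)
        convert this using 1
        abel
    rw [this, Finset.card_image_of_injective _ (add_right_injective b)]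
  · intro x hx
    rw [Finset.mem_coe, Finset.mem_add] at hx
    obtain ⟨b, hb, h, hh, rfl⟩ := hx
    rw [Finset.mem_coe, Finset.mem_image]
    refine ⟨b, hb, ?_⟩
    rw [QuotientAddGroup.eq]
    have := mem_fs.mp hh
    convert this using 1
    abel

theorem fs_card (H : AddSubgroup Q) : (fs H).card = Nat.card H := by
  rw [← Nat.card_eq_finsetCard]
  exact Nat.card_congr (Equiv.subtypeEquivRight (fun x => mem_fs))

theorem step {r p : ℕ} (hp : p.Prime)
    (hQ : ∀ x : Q, r • x = 0)
    (hq : ∀ q : ℕ, q.Prime → q ∣ r → q ∣ Fintype.card Q → p ≤ q)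
    (A B : Finset Q) (hA : A.Nonempty) (hB : Fintype.card Q < p * B.card) :
    min (Fintype.card Q : ℝ) (A.card + beta r p * Fintype.card Q) ≤ ((A + B).card : ℝ) := by
  have hBne : B.Nonempty := by
    rw [← Finset.card_pos]
    by_contra h
    have : B.card = 0 := by omega
    rw [this] at hB
    omega
  set H := stab (A + B) with hH
  by_cases h1 : H.index = 1
  · apply (min_le_left _ _).trans
    rw [AddSubgroup.index_eq_one] at h1
    have : A + B = univ := by
      obtain ⟨c, hc⟩ := hA.add hBne
      rw [Finset.eq_univ_iff_forall]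
      intro x
      have hx : x - c ∈ stab (A + B) := by rw [← hH, h1]; trivial
      have := stab_add hx hc
      rwa [add_sub_cancel] at this
    rw [this, Finset.card_univ]
  · apply (min_le_right _ _).trans
    have hk := kneser' A B hA hBne
    rw [← hH] at hk
    obtain ⟨b, hb⟩ := card_add_fs B H
    have hpos := fs_card_pos H
    have hcard : H.index * (fs H).card = Fintype.card Q := by
      rw [fs_card, mul_comm, AddSubgroup.card_mul_index, Nat.card_eq_fintype_card]
    have hle : ∀ C : Finset Q, C.card ≤ (C + fs H).card := by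
      intro C
      apply Finset.card_le_card
      intro x hx
      have h0 : x + 0 ∈ C + fs H := Finset.add_mem_add hx (mem_fs.mpr H.zero_mem)
      rwa [add_zero] at h0
    have hBle := hle B
    have hAle := hle A
    have hidx : H.index < p * b := by
      have : H.index * (fs H).card < p * b * (fs H).card := by
        rw [hcard, mul_assoc, ← hb]
        exact hB.trans_le (Nat.mul_le_mul_left _ hBle)
      exact lt_of_mul_lt_mul_right this (Nat.zero_le _)
    have hg := index_gain hp hQ hq H h1 b hidx
    have h2 : beta r p * Fintype.card Q ≤ ((b : ℝ) - 1) * (fs H).card := by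
      rw [← hcard]
      push_cast
      rw [← mul_assoc]
      exact mul_le_mul_of_nonneg_right hg (by positivity)
    have h3 : ((A + fs H).card : ℝ) + b * (fs H).card ≤ (A + B).card + (fs H).card := by
      rw [hb] at hk
      exact_mod_cast hk
    have h4 : (A.card : ℝ) ≤ (A + fs H).card := by exact_mod_cast hAle
    linarith

end Pool.Agent.U920.CS
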